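import Pool.Agent.K7.H2.UT.Stm

/-!
# The 4-universal transversal property: the small primes (`StSMALL`)
-/

set_option autoImplicit false

namespace Pool.Agent.K7.H15.UTSMALL

open Pool.Agent.K7.H2.UT

theorem key (p r a b c : ℕ) (ha : a.Coprime p) (hb : b.Coprime p) (hc : c.Coprime p)
    (h : a ^ r + b ^ r ≡ c ^ r [MOD p]) :
    ∃ x ∈ (powMonoidHom r : (ZMod p)ˣ →* (ZMod p)ˣ).range,
    ∃ y ∈ (powMonoidHom r : (ZMod p)ˣ →* (ZMod p)ˣ).range,
      ∃ z ∈ (powMonoidHom r : (ZMod p)ˣ →* (ZMod p)ˣ).range, (x : ZMod p) + y = z := by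
  refine ⟨(ZMod.unitOfCoprime a ha) ^ r, ⟨_, rfl⟩, (ZMod.unitOfCoprime b hb) ^ r, ⟨_, rfl⟩,
    (ZMod.unitOfCoprime c hc) ^ r, ⟨_, rfl⟩, ?_⟩
  rw [Units.val_pow_eq_pow_val, Units.val_pow_eq_pow_val, Units.val_pow_eq_pow_val,
    ZMod.coe_unitOfCoprime, ZMod.coe_unitOfCoprime, ZMod.coe_unitOfCoprime]
  have h1 := (ZMod.natCast_eq_natCast_iff _ _ _).2 h
  push_cast at h1
  exact h1

theorem stSMALL : StSMALL := by
  intro p r _ hpr
  simp only [List.mem_cons, Prod.mk.injEq, List.not_mem_nil, or_false] at hpr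
  rcases hpr with ⟨rfl, rfl⟩ | ⟨rfl, rfl⟩ | ⟨rfl, rfl⟩ | ⟨rfl, rfl⟩ | ⟨rfl, rfl⟩ | ⟨rfl, rfl⟩
  · exact key 13 2 1 3 6 (by norm_num) (by norm_num) (by norm_num) (by decide)
  · exact key 19 3 1 4 2 (by norm_num) (by norm_num) (by norm_num) (by decide)
  · exact key 31 3 1 1 4 (by norm_num) (by norm_num) (by norm_num) (by decide)
  · exact key 43 3 1 1 20 (by norm_num) (by norm_num) (by norm_num) (by decide)
  · exact key 67 3 1 2 16 (by norm_num) (by norm_num) (by norm_num) (by decide)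
  · exact key 79 3 1 4 18 (by norm_num) (by norm_num) (by norm_num) (by decide)

end Pool.Agent.K7.H15.UTSMALL
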